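import Mathlib

/-!
# Buchberger's algorithm over the integers with S-polynomials (Algorithm A')

`Algorithm A'` (normal forms of S-polynomials instead of comparing the normal forms of the two
halves of the critical pair) is not correct: for the two constants `3, 8` it may stop at once with
output `{3, 8}`, which is not a Gröbner basis.
-/

namespace Pool.Agent.Results.MP_698df0_al.AlgorithmAPrimeFails

open MvPolynomial Relation

/-- The order `0 ≺ -1 ≺ 1 ≺ -2 ≺ 2 ≺ -3 ≺ 3 ≺ ...` on the integers. -/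
def Prec (a b : ℤ) : Prop := a.natAbs < b.natAbs ∨ (a.natAbs = b.natAbs ∧ a < b)

instance : DecidableRel Prec := fun a b => by unfold Prec; infer_instance

/-- The position of an integer in the order `Prec`. -/
def pos (a : ℤ) : ℕ := 2 * a.natAbs + if 0 < a then 1 else 0

theorem pos_lt {a b : ℤ} (h : Prec a b) : pos a < pos b := by
  unfold Prec at h; unfold pos; split_ifs <;> omega

/-- `M(a,c) = M(a-c,c)+1` if `a, c` have the same sign and `a-c ≺ a`; `M(a,c) = M(a+c,c)-1` if they
have opposite signs and `a+c ≺ a`; otherwise `M(a,c) = 0`. -/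
def M (a c : ℤ) : ℤ :=
  if 0 < a * c ∧ Prec (a - c) a then M (a - c) c + 1
  else if a * c < 0 ∧ Prec (a + c) a then M (a + c) c - 1
  else 0
termination_by pos a
decreasing_by
  · rename_i h; exact pos_lt h.2
  · rename_i h; exact pos_lt h.2

/-- `L(c) = |c|/2` for even `c` and `L(c) = -(|c|+1)/2` for odd `c`. -/
def L (c : ℤ) : ℤ := if Even c then |c| / 2 else -((|c| + 1) / 2)

/-- `LCR(c₁,c₂)` is the larger of `L(c₁), L(c₂)` in the order `Prec`. -/
def LCR (c₁ c₂ : ℤ) : ℤ := if Prec (L c₁) (L c₂) then L c₂ else L c₁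

/-- Polynomials in `x₁, ..., xₙ` with integer coefficients. -/
abbrev Poly (n : ℕ) := MvPolynomial (Fin n) ℤ

variable {n : ℕ} (m : MonomialOrder.{0, 0} (Fin n))

/-- The entry `a U - M(a, LC(f)) (U / LP(f)) f` of the critical pair of `f₁, f₂` which belongs to
`f ∈ {f₁, f₂}`, where `U = lcm(LP(f₁), LP(f₂))` and `a = LCR(LC(f₁), LC(f₂))`. -/
noncomputable def critEntry (f₁ f₂ f : Poly n) : Poly n :=
  monomial (m.degree f₁ ⊔ m.degree f₂) (LCR (m.leadingCoeff f₁) (m.leadingCoeff f₂)) -
    monomial ((m.degree f₁ ⊔ m.degree f₂) - m.degree f)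
      (M (LCR (m.leadingCoeff f₁) (m.leadingCoeff f₂)) (m.leadingCoeff f)) * f

/-- The S-polynomial `p₁ - p₂` of `f₁, f₂`. -/
noncomputable def sPoly (f₁ f₂ : Poly n) : Poly n := critEntry m f₁ f₂ f₁ - critEntry m f₁ f₂ f₂

/-- One reduction step `g →_F h`. -/
def Reduces (F : Finset (Poly n)) (g h : Poly n) : Prop :=
  ∃ f ∈ F, f ≠ 0 ∧ ∃ (b : ℤ) (u : Fin n →₀ ℕ), g.coeff (u + m.degree f) ≠ 0 ∧
    Prec (g.coeff (u + m.degree f) - b * m.leadingCoeff f) (g.coeff (u + m.degree f)) ∧
    h = g - monomial u b * f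

/-- `h` is irreducible modulo `F`. -/
def Irred (F : Finset (Poly n)) (h : Poly n) : Prop := ∀ h', ¬ Reduces m F h h'

/-- `S` is a normal form algorithm: `S(F,g)` is irreducible modulo `F` and `g →*_F S(F,g)`. -/
def IsNormalFormAlgorithm (S : Finset (Poly n) → Poly n → Poly n) : Prop :=
  ∀ F g, ReflTransGen (Reduces m F) g (S F g) ∧ Irred m F (S F g)

/-- `F` is a Gröbner basis: every `g` has exactly one irreducible element reachable from it. -/
def IsGroebner (F : Finset (Poly n)) : Prop :=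
  ∀ g, ∃! h, ReflTransGen (Reduces m F) g h ∧ Irred m F h

/-- A state of the algorithm: the current basis `G` and the set `B` of unordered pairs. -/
abbrev State (n : ℕ) := Finset (Poly n) × Set (Sym2 (Poly n))

/-- The initial state: `G = F` and `B` consists of all pairs from `F`. -/
def init (F : Finset (Poly n)) : State n :=
  (F, {p | ∃ f ∈ F, ∃ g ∈ F, f ≠ g ∧ p = s(f, g)})

open scoped Classical in
/-- One pass of the loop of Algorithm A' (with normal form algorithm `S`): some pair `{f₁,f₂}` of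
`B` is chosen and removed; if `h' = S(G, p₁ - p₂)` is not zero, then all pairs `{g,h'}`, `g ∈ G`,
are added to `B` and `h'` is added to `G`. -/
def Step (S : Finset (Poly n) → Poly n → Poly n) (s t : State n) : Prop :=
  ∃ f₁ f₂, s(f₁, f₂) ∈ s.2 ∧
    ((S s.1 (sPoly m f₁ f₂) = 0 ∧ t = (s.1, s.2 \ {s(f₁, f₂)})) ∨
     (S s.1 (sPoly m f₁ f₂) ≠ 0 ∧
        t = (insert (S s.1 (sPoly m f₁ f₂)) s.1,
          (s.2 \ {s(f₁, f₂)}) ∪ {p | ∃ g ∈ s.1, p = s(g, S s.1 (sPoly m f₁ f₂))})))

/-- Correctness of Algorithm A' for all numbers of variables, term orderings, normal form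
algorithms, inputs and choice rules: there is no infinite run, and every output (the basis `G` when
`B` is empty) is a Gröbner basis generating the same ideal as the input. -/
def APrimeCorrect : Prop :=
  ∀ (n : ℕ) (m : MonomialOrder.{0, 0} (Fin n)) (S : Finset (Poly n) → Poly n → Poly n),
    IsNormalFormAlgorithm m S → ∀ F : Finset (Poly n), 0 ∉ F →
      (¬ ∃ run : ℕ → State n, run 0 = init F ∧ ∀ k, Step m S (run k) (run (k + 1))) ∧
      ∀ G : Finset (Poly n), ReflTransGen (Step m S) (init F) (G, ∅) →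
        IsGroebner m G ∧ Ideal.span (G : Set (Poly n)) = Ideal.span (F : Set (Poly n))

/-! ### Termination of reduction -/

theorem prec_wf : WellFounded Prec :=
  Subrelation.wf (fun {_ _} h => pos_lt h) (InvImage.wf pos Nat.lt_wfRel.wf)

theorem not_prec_zero (a : ℤ) : ¬ Prec a 0 := by
  unfold Prec; simp; omega

theorem reduces_wf (F : Finset (Poly n)) : WellFounded (fun h g => Reduces m F g h) := by
  have hwf : WellFounded (Finsupp.Lex (α := Fin n →₀ ℕ) (N := ℤ)
      (fun a b => m.toSyn b < m.toSyn a) Prec) := by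
    have : Std.Trichotomous (fun a b : Fin n →₀ ℕ => m.toSyn b < m.toSyn a) := by
      constructor
      intro a b h1 h2
      apply m.toSyn.injective
      exact le_antisymm (not_lt.mp h1) (not_lt.mp h2)
    refine Finsupp.Lex.wellFounded' (fun a => not_prec_zero a) prec_wf ?_
    exact InvImage.wf m.toSyn (wellFounded_lt)
  refine Subrelation.wf (r := InvImage (Finsupp.Lex (α := Fin n →₀ ℕ) (N := ℤ)
      (fun a b => m.toSyn b < m.toSyn a) Prec) (fun g : Poly n => AddMonoidAlgebra.coeff g))
      ?_ (InvImage.wf _ hwf)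
  rintro h g ⟨f, -, hf, b, u, ha, hp, rfl⟩
  refine ⟨u + m.degree f, ?_, ?_⟩
  · intro d hd
    change (g - monomial u b * f).coeff d = g.coeff d
    rw [coeff_sub, coeff_monomial_mul']
    split_ifs with hud
    · have : f.coeff (d - u) = 0 := by
        apply m.coeff_eq_zero_of_lt
        have h1 : m.toSyn (u + m.degree f) < m.toSyn d := hd
        have h2 : d = u + (d - u) := (add_tsub_cancel_of_le hud).symm
        rw [h2, map_add, map_add] at h1
        exact lt_of_add_lt_add_left h1
      rw [this]; simp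
    · simp
  · change Prec ((g - monomial u b * f).coeff (u + m.degree f)) (g.coeff (u + m.degree f))
    rw [coeff_sub, coeff_monomial_mul]
    exact hp

theorem exists_normal (F : Finset (Poly n)) (g : Poly n) :
    ∃ h, ReflTransGen (Reduces m F) g h ∧ Irred m F h := by
  induction g using (reduces_wf m F).induction with
  | _ g ih =>
    by_cases hg : Irred m F g
    · exact ⟨g, .refl, hg⟩
    · unfold Irred at hg
      push Not at hg
      obtain ⟨h, hh⟩ := hg
      obtain ⟨k, hk, hk'⟩ := ih h hh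
      exact ⟨k, .head hh hk, hk'⟩

/-! ### The example -/

/-- The input `{3, 8}`. -/
noncomputable def F38 (n : ℕ) : Finset (Poly n) := by
  classical exact {C 3, C 8}

theorem mem_F38 {f : Poly n} : f ∈ F38 n ↔ f = C 3 ∨ f = C 8 := by
  simp [F38]

theorem C_ne {a b : ℤ} (h : a ≠ b) : (C a : Poly n) ≠ C b := fun e => h (C_injective _ _ e)

theorem step3 (a b : ℤ) (ha : a ≠ 0) (hp : Prec (a - b * 3) a) :
    Reduces m (F38 n) (C a) (C (a - b * 3)) := by
  refine ⟨C 3, mem_F38.2 (Or.inl rfl), ?_, b, 0, ?_, ?_, ?_⟩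
  · rw [← C_0]; exact C_ne (by norm_num)
  · rw [zero_add, m.degree_C, coeff_zero_C]; exact ha
  · rw [zero_add, m.degree_C, coeff_zero_C, m.leadingCoeff_C]; exact hp
  · rw [monomial_zero', ← C_mul, ← C_sub]

theorem step8 (a b : ℤ) (ha : a ≠ 0) (hp : Prec (a - b * 8) a) :
    Reduces m (F38 n) (C a) (C (a - b * 8)) := by
  refine ⟨C 8, mem_F38.2 (Or.inr rfl), ?_, b, 0, ?_, ?_, ?_⟩
  · rw [← C_0]; exact C_ne (by norm_num)
  · rw [zero_add, m.degree_C, coeff_zero_C]; exact ha
  · rw [zero_add, m.degree_C, coeff_zero_C, m.leadingCoeff_C]; exact hp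
  · rw [monomial_zero', ← C_mul, ← C_sub]

theorem five_to_zero : ReflTransGen (Reduces m (F38 n)) (C 5) 0 := by
  have h1 := step8 (n := n) m 5 1 (by norm_num) (by decide)
  have h2 := step3 (n := n) m (5 - 1 * 8) (-1) (by norm_num) (by decide)
  have h3 : (C (5 - 1 * 8 - -1 * 3) : Poly n) = 0 := by norm_num
  rw [h3] at h2
  exact .head h1 (.single h2)

theorem neg_five_to_zero : ReflTransGen (Reduces m (F38 n)) (C (-5)) 0 := by
  have h1 := step8 (n := n) m (-5) (-1) (by norm_num) (by decide)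
  have h2 := step3 (n := n) m (-5 - -1 * 8) 1 (by norm_num) (by decide)
  have h3 : (C (-5 - -1 * 8 - 1 * 3) : Poly n) = 0 := by norm_num
  rw [h3] at h2
  exact .head h1 (.single h2)

theorem irred_zero (F : Finset (Poly n)) : Irred m F 0 := by
  rintro h' ⟨f, -, -, b, u, ha, -⟩
  simp at ha

theorem irred_neg_one : Irred m (F38 n) (C (-1)) := by
  rintro h' ⟨f, hf, -, b, u, ha, hp, -⟩
  have hd : m.degree f = 0 := by
    rcases mem_F38.1 hf with rfl | rfl <;> exact m.degree_C _
  rw [hd, add_zero] at ha hp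
  have hu : u = 0 := by
    by_contra hu
    apply ha
    rw [coeff_C]
    simp [Ne.symm hu]
  subst hu
  rw [coeff_zero_C] at hp
  have hc : m.leadingCoeff f = 3 ∨ m.leadingCoeff f = 8 := by
    rcases mem_F38.1 hf with rfl | rfl
    · exact Or.inl (m.leadingCoeff_C _)
    · exact Or.inr (m.leadingCoeff_C _)
  unfold Prec at hp
  rcases hc with hc | hc <;> rw [hc] at hp <;> omega

theorem five_to_neg_one : ReflTransGen (Reduces m (F38 n)) (C 5) (C (-1)) := by
  have h1 := step3 (n := n) m 5 2 (by norm_num) (by decide)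
  have h3 : (C (5 - 2 * 3) : Poly n) = C (-1) := by norm_num
  rw [h3] at h1
  exact .single h1

theorem not_groebner : ¬ IsGroebner m (F38 n) := by
  intro h
  obtain ⟨k, -, hk⟩ := h (C 5)
  have h1 := hk 0 ⟨five_to_zero m, irred_zero m _⟩
  have h2 := hk (C (-1)) ⟨five_to_neg_one m, irred_neg_one m⟩
  have h3 : (C (-1) : Poly n) = C 0 := by rw [h2, ← h1, C_0]
  exact C_ne (by norm_num) h3

theorem M_4_3 : M 4 3 = 1 := by
  rw [M, if_pos (by decide), M, if_neg (by decide), if_neg (by decide)]; norm_num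

theorem M_4_8 : M 4 8 = 1 := by
  rw [M, if_pos (by decide), M, if_neg (by decide), if_neg (by decide)]; norm_num

theorem LCR_3_8 : LCR 3 8 = 4 := by decide

theorem LCR_8_3 : LCR 8 3 = 4 := by decide

theorem sPoly_3_8 : sPoly m (C 3 : Poly n) (C 8) = C 5 := by
  unfold sPoly critEntry
  simp only [MonomialOrder.degree_C, MonomialOrder.leadingCoeff_C, LCR_3_8, M_4_3, M_4_8,
    sup_idem, tsub_self, monomial_zero']
  rw [← C_mul, ← C_mul, ← C_sub, ← C_sub, ← C_sub]; norm_num

theorem sPoly_8_3 : sPoly m (C 8 : Poly n) (C 3) = C (-5) := by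
  unfold sPoly critEntry
  simp only [MonomialOrder.degree_C, MonomialOrder.leadingCoeff_C, LCR_8_3, M_4_3, M_4_8,
    sup_idem, tsub_self, monomial_zero']
  rw [← C_mul, ← C_mul, ← C_sub, ← C_sub, ← C_sub]; norm_num

open scoped Classical in
/-- The normal form algorithm used: it sends `5` and `-5` to `0` modulo `{3, 8}`, and is an
arbitrary normal form algorithm otherwise. -/
noncomputable def S38 (F : Finset (Poly n)) (g : Poly n) : Poly n :=
  if F = F38 n ∧ (g = C 5 ∨ g = C (-5)) then 0 else (exists_normal m F g).choose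

theorem S38_isNormalFormAlgorithm : IsNormalFormAlgorithm m (S38 m) := by
  intro F g
  unfold S38
  split_ifs with h
  · obtain ⟨rfl, rfl | rfl⟩ := h
    · exact ⟨five_to_zero m, irred_zero m _⟩
    · exact ⟨neg_five_to_zero m, irred_zero m _⟩
  · exact (exists_normal m F g).choose_spec

theorem init_F38 : init (F38 n) = (F38 n, {s(C 3, C 8)}) := by
  unfold init
  congr 1
  ext p
  simp only [Set.mem_ofPred_eq, Set.mem_singleton_iff, mem_F38]
  constructor
  · rintro ⟨f, rfl | rfl, g, rfl | rfl, hne, rfl⟩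
    · exact absurd rfl hne
    · rfl
    · exact Sym2.eq_swap
    · exact absurd rfl hne
  · rintro rfl
    exact ⟨C 3, Or.inl rfl, C 8, Or.inr rfl, C_ne (by norm_num), rfl⟩

theorem step_F38 (t : State n) : Step m (S38 m) (init (F38 n)) t ↔ t = (F38 n, ∅) := by
  rw [init_F38]
  have key : ∀ f₁ f₂ : Poly n, s(f₁, f₂) = s(C 3, C 8) →
      S38 m (F38 n) (sPoly m f₁ f₂) = 0 := by
    intro f₁ f₂ h
    rcases Sym2.eq_iff.1 h with ⟨rfl, rfl⟩ | ⟨rfl, rfl⟩
    · rw [sPoly_3_8]; unfold S38; rw [if_pos ⟨rfl, Or.inl rfl⟩]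
    · rw [sPoly_8_3]; unfold S38; rw [if_pos ⟨rfl, Or.inr rfl⟩]
  constructor
  · rintro ⟨f₁, f₂, hm, ⟨-, rfl⟩ | ⟨hne, -⟩⟩
    · have hm' : s(f₁, f₂) = s(C 3, C 8) := hm
      simp [hm']
    · exact absurd (key f₁ f₂ hm) hne
  · rintro rfl
    refine ⟨C 3, C 8, rfl, Or.inl ⟨key _ _ rfl, ?_⟩⟩
    simp

/-- **Algorithm A' is not correct.** For every number of variables `n` and every term ordering `m`
there is a normal form algorithm `S` such that, started with `F = {3, 8}`, Algorithm A' has only one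
possible run: it makes one pass of the loop and then stops with output `{3, 8}`, which is not a
Gröbner basis. In particular the correctness statement of the problem is false. -/
theorem result :
    (∀ (n : ℕ) (m : MonomialOrder.{0, 0} (Fin n)), ∃ S : Finset (Poly n) → Poly n → Poly n,
      IsNormalFormAlgorithm m S ∧
      (∀ t : State n, Step m S (init (F38 n)) t ↔ t = (F38 n, ∅)) ∧
      ¬ IsGroebner m (F38 n)) ∧
    ¬ APrimeCorrect := by
  have main : ∀ (n : ℕ) (m : MonomialOrder.{0, 0} (Fin n)), ∃ S : Finset (Poly n) → Poly n → Poly n,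
      IsNormalFormAlgorithm m S ∧
      (∀ t : State n, Step m S (init (F38 n)) t ↔ t = (F38 n, ∅)) ∧
      ¬ IsGroebner m (F38 n) := fun n m =>
    ⟨S38 m, S38_isNormalFormAlgorithm m, step_F38 m, not_groebner m⟩
  refine ⟨main, fun hc => ?_⟩
  obtain ⟨S, hS, hstep, hng⟩ := main 1 MonomialOrder.lex
  have h0 : (0 : Poly 1) ∉ F38 1 := by
    rw [mem_F38, ← C_0]
    rintro (h | h)
    · exact C_ne (by norm_num) h
    · exact C_ne (by norm_num) h
  exact hng ((hc 1 MonomialOrder.lex S hS (F38 1) h0).2 (F38 1)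
    (.single ((hstep _).2 rfl))).1

end Pool.Agent.Results.MP_698df0_al.AlgorithmAPrimeFails
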